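import Pool.Agent.helper57.DH.SpecL

/-!
# Project d2: (MP_5823cb_al), row d2:LFV: the gap for `fr_s f`
-/

set_option autoImplicit false

open Filter Topology MeasureTheory
open scoped commutatorElement

namespace Pool.Agent.helper90.DH

open Pool.Agent.helper64.D2

theorem LFV_ci (s : ℕ) (x : ℝ) (k : ℤ) : ci s x = k ↔ (k : ℝ) ≤ 2 ^ s * x ∧ 2 ^ s * x < k + 1 := by
  unfold ci
  exact Int.floor_eq_iff

theorem LFV_cell (s : ℕ) (x : ℝ) (k : ℤ) : x ∈ cell s k ↔ ci s x = k := by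
  rw [LFV_ci]
  unfold cell
  have h : (0 : ℝ) < 2 ^ s := by positivity
  rw [Set.mem_Ico, div_le_iff₀ h, lt_div_iff₀ h, mul_comm x]

theorem LFV_coarse (s r : ℕ) (hsr : s ≤ r) (x z : ℝ) (h : ci r x = ci r z) : ci s x = ci s z := by
  obtain ⟨h1, h2⟩ := (LFV_ci s z (ci s z)).1 rfl
  obtain ⟨h3, h4⟩ := (LFV_ci r z (ci r z)).1 rfl
  obtain ⟨h5, h6⟩ := (LFV_ci r x (ci r z)).1 h
  obtain ⟨e, rfl⟩ := Nat.exists_eq_add_of_le hsr
  have he : (0 : ℝ) < 2 ^ e := by positivity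
  have hz : (2 : ℝ) ^ (s + e) * z = 2 ^ e * (2 ^ s * z) := by rw [pow_add]; ring
  have hx : (2 : ℝ) ^ (s + e) * x = 2 ^ e * (2 ^ s * x) := by rw [pow_add]; ring
  rw [hz] at h3 h4
  rw [hx] at h5 h6
  have h7 : (ci s z) * 2 ^ e ≤ ci (s + e) z := by
    have : ((ci s z * 2 ^ e : ℤ) : ℝ) < (ci (s + e) z : ℝ) + 1 := by
      push_cast
      nlinarith
    have h8 : ci s z * 2 ^ e < ci (s + e) z + 1 := by exact_mod_cast this
    omega
  have h8 : ci (s + e) z + 1 ≤ (ci s z + 1) * 2 ^ e := by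
    have : ((ci (s + e) z : ℤ) : ℝ) < (((ci s z + 1) * 2 ^ e : ℤ) : ℝ) := by
      push_cast
      nlinarith
    have h8 : ci (s + e) z < (ci s z + 1) * 2 ^ e := by exact_mod_cast this
    omega
  have h7' : (ci s z : ℝ) * 2 ^ e ≤ ci (s + e) z := by exact_mod_cast h7
  have h8' : (ci (s + e) z : ℝ) + 1 ≤ (ci s z + 1) * 2 ^ e := by exact_mod_cast h8
  rw [LFV_ci]
  constructor
  · by_contra hc
    push Not at hc
    nlinarith
  · by_contra hc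
    push Not at hc
    nlinarith

theorem LFV_mid (s : ℕ) (x : ℝ) : ci s (mid s x) = ci s x ∧ |x - mid s x| ≤ 1 / 2 ^ (s + 1) := by
  have h2 : (0 : ℝ) < 2 ^ s := by positivity
  have h3 : (2 : ℝ) ^ s * mid s x = ci s x + 1 / 2 := by
    unfold mid
    field_simp
  obtain ⟨h4, h5⟩ := (LFV_ci s x (ci s x)).1 rfl
  refine ⟨?_, ?_⟩
  · rw [LFV_ci, h3]
    constructor <;> linarith
  · have h6 : |2 ^ s * (x - mid s x)| ≤ 1 / 2 := by
      rw [mul_sub, h3, abs_le]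
      constructor <;> linarith
    rw [abs_mul, abs_of_pos h2] at h6
    rw [pow_succ, le_div_iff₀ (by positivity)]
    nlinarith

theorem LFV_left (s : ℕ) (x : ℝ) : ci s ((ci s x : ℝ) / 2 ^ s) = ci s x ∧ |x - (ci s x : ℝ) / 2 ^ s| ≤ 1 / 2 ^ s ∧
    mid s x - (ci s x : ℝ) / 2 ^ s = 1 / (2 * 2 ^ s) := by
  have h2 : (0 : ℝ) < 2 ^ s := by positivity
  have h3 : (2 : ℝ) ^ s * ((ci s x : ℝ) / 2 ^ s) = ci s x := by field_simp
  obtain ⟨h4, h5⟩ := (LFV_ci s x (ci s x)).1 rfl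
  refine ⟨?_, ?_, ?_⟩
  · rw [LFV_ci, h3]
    constructor <;> linarith
  · have h6 : |2 ^ s * (x - (ci s x : ℝ) / 2 ^ s)| ≤ 1 := by
      rw [mul_sub, h3, abs_le]
      constructor <;> linarith
    rw [abs_mul, abs_of_pos h2] at h6
    rw [le_div_iff₀ (by positivity)]
    linarith
  · unfold mid
    field_simp
    ring

theorem LFV_fr (s : ℕ) (x : ℝ) : fr s x = 2 ^ s * x - ci s x ∧ 0 ≤ fr s x ∧ fr s x ≤ 1 := by
  unfold fr ci
  exact ⟨rfl, Int.fract_nonneg _, (Int.fract_lt_one _).le⟩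

theorem LFV_pow (s : ℕ) (hs : 10 ≤ s) : (1 : ℝ) / 2 ^ s ≤ 1 / 1024 := by
  have : (2 : ℝ) ^ 10 ≤ 2 ^ s := pow_le_pow_right₀ (by norm_num) hs
  apply one_div_le_one_div_of_le (by norm_num)
  linarith

/-- the approximation at the level `n`. -/
theorem LFV_fine (hLBM : LBM_stmt) (hLCS : LCS_stmt) (hLEP : LEP_stmt) (hLEN : LEN_stmt)
    (s L : ℕ) (hs : 10 ≤ s) (f : ℝ → ℝ) (hf : PA (s + 1) f) (hf3 : S3 f) :
    nsq (fun x => (fr s x * f x) - Es (s + 1 + L) (fun z => fr s z * f z) x) ≤ 36 / 16 ^ L * nsq f := by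
  have hbf : BM f := hLBM.2.2.1 (s + 1) f hf fun x hx => hf3 x fun h => hx ⟨by linarith [h.1], by linarith [h.2]⟩
  have hbv : BM (fun x => fr s x * f x) := (hLBM.2.2.2.1 s f hbf).2.2
  obtain ⟨β, hβ⟩ : ∃ β : ℝ → ℝ, β = fun x => 2 * 2 ^ (s + 1) * (f (mid (s + 1) x) - f ((ci (s + 1) x : ℝ) / 2 ^ (s + 1))) := ⟨_, rfl⟩
  obtain ⟨g, hg⟩ : ∃ g : ℝ → ℝ, g = fun x => fr s x * f x - 2 ^ s * β x * (x - (ci (s + 1 + L) x : ℝ) / 2 ^ (s + 1 + L)) ^ 2 := ⟨_, rfl⟩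
  have hPA : PA (s + 1 + L) g := by
    intro k
    obtain ⟨x₀, hx₀⟩ : ∃ x₀ : ℝ, x₀ = (k : ℝ) / 2 ^ (s + 1 + L) := ⟨_, rfl⟩
    have hk : ci (s + 1 + L) x₀ = k := by
      rw [LFV_ci, hx₀]
      have : (2 : ℝ) ^ (s + 1 + L) * ((k : ℝ) / 2 ^ (s + 1 + L)) = k := by field_simp
      rw [this]
      constructor <;> linarith
    obtain ⟨A, B, hAB⟩ := hf (ci (s + 1) x₀)
    refine ⟨-(ci s x₀ : ℝ) * A - 2 ^ s * B * x₀ ^ 2, 2 ^ s * A - ci s x₀ * B + 2 * 2 ^ s * B * x₀, ?_⟩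
    intro x hx
    rw [LFV_cell] at hx
    have h1 : ci (s + 1) x = ci (s + 1) x₀ := LFV_coarse (s + 1) (s + 1 + L) (by omega) x x₀ (by rw [hx, hk])
    have h2 : ci s x = ci s x₀ := LFV_coarse s (s + 1 + L) (by omega) x x₀ (by rw [hx, hk])
    have h3 : f x = A + B * x := hAB x ((LFV_cell _ _ _).2 h1)
    have h4 : f (mid (s + 1) x) = A + B * mid (s + 1) x := hAB _ ((LFV_cell _ _ _).2 ((LFV_mid (s + 1) x).1.trans h1))
    have h5 : f ((ci (s + 1) x : ℝ) / 2 ^ (s + 1)) = A + B * ((ci (s + 1) x : ℝ) / 2 ^ (s + 1)) :=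
      hAB _ ((LFV_cell _ _ _).2 ((LFV_left (s + 1) x).1.trans h1))
    have h6 : β x = B := by
      rw [hβ]
      change 2 * 2 ^ (s + 1) * (f (mid (s + 1) x) - f ((ci (s + 1) x : ℝ) / 2 ^ (s + 1))) = B
      rw [h4, h5]
      have h7 := (LFV_left (s + 1) x).2.2
      have h8 : A + B * mid (s + 1) x - (A + B * ((ci (s + 1) x : ℝ) / 2 ^ (s + 1))) = B * (1 / (2 * 2 ^ (s + 1))) := by
        rw [← h7]
        ring
      rw [h8]
      field_simp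
    rw [hg]
    change fr s x * f x - 2 ^ s * β x * (x - (ci (s + 1 + L) x : ℝ) / 2 ^ (s + 1 + L)) ^ 2 = _
    rw [h6, h3, (LFV_fr s x).1, h2, hx, ← hx₀]
    ring
  have hout : ∀ x, x ∉ Set.Icc (0 : ℝ) 1 → ∀ y, |x - y| ≤ 1 / 1024 → f y = 0 := by
    intro x hx y hy
    apply hf3
    intro h
    apply hx
    rw [abs_le] at hy
    exact ⟨by linarith [h.1, h.2, hy.1, hy.2], by linarith [h.1, h.2, hy.1, hy.2]⟩
  have hbg : BM g := by
    refine hLBM.2.2.1 _ g hPA fun x hx => ?_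
    rw [hg, hβ]
    change fr s x * f x - 2 ^ s * (2 * 2 ^ (s + 1) * (f (mid (s + 1) x) - f ((ci (s + 1) x : ℝ) / 2 ^ (s + 1)))) * (x - (ci (s + 1 + L) x : ℝ) / 2 ^ (s + 1 + L)) ^ 2 = 0
    have h1 := LFV_pow (s + 1) (by omega)
    have h2 := LFV_pow (s + 1 + 1) (by omega)
    rw [hout x hx x (by simp), hout x hx _ ((LFV_mid (s + 1) x).2.trans h2), hout x hx _ ((LFV_left (s + 1) x).2.1.trans h1)]
    ring
  have hbest := hLEP.2.2 (s + 1 + L) (fun x => fr s x * f x) g hbv hbg hPA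
  refine hbest.trans ?_
  obtain ⟨-, -, hB, -⟩ := hLEN (s + 1) f hf
  obtain ⟨hBb, -, hBn, -⟩ := hB hbf
  have hpt : ∀ x, |fr s x * f x - g x| ≤ |1 / 4 ^ L * Bg (s + 1) f x| := by
    intro x
    have h1 : fr s x * f x - g x = 2 ^ s * β x * (x - (ci (s + 1 + L) x : ℝ) / 2 ^ (s + 1 + L)) ^ 2 := by
      rw [hg]
      ring
    rw [h1, abs_mul, abs_mul, abs_of_pos (by positivity : (0 : ℝ) < 2 ^ s)]
    have h2 : |β x| ≤ 2 * 2 ^ (s + 1) * Bg (s + 1) f x := by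
      rw [hβ]
      change |2 * 2 ^ (s + 1) * (f (mid (s + 1) x) - f ((ci (s + 1) x : ℝ) / 2 ^ (s + 1)))| ≤ _
      rw [abs_mul, abs_of_pos (by positivity : (0 : ℝ) < 2 * 2 ^ (s + 1))]
      refine mul_le_mul_of_nonneg_left ?_ (by positivity)
      unfold Bg
      have h3 := abs_sub (f (mid (s + 1) x)) (f ((ci (s + 1) x : ℝ) / 2 ^ (s + 1)))
      have h4 := abs_nonneg (f (mid (s + 1) x))
      linarith
    have h3 : 0 ≤ Bg (s + 1) f x := by
      unfold Bg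
      positivity
    have h4 : |(x - (ci (s + 1 + L) x : ℝ) / 2 ^ (s + 1 + L)) ^ 2| ≤ (1 / 2 ^ (s + 1 + L)) ^ 2 := by
      rw [abs_pow]
      exact pow_le_pow_left₀ (abs_nonneg _) (LFV_left (s + 1 + L) x).2.1 2
    rw [abs_of_nonneg (by positivity : (0 : ℝ) ≤ 1 / 4 ^ L * Bg (s + 1) f x)]
    calc 2 ^ s * |β x| * |(x - (ci (s + 1 + L) x : ℝ) / 2 ^ (s + 1 + L)) ^ 2|
        ≤ 2 ^ s * (2 * 2 ^ (s + 1) * Bg (s + 1) f x) * (1 / 2 ^ (s + 1 + L)) ^ 2 := by gcongr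
      _ = 1 / 4 ^ L * Bg (s + 1) f x := by
        have h5 : (4 : ℝ) ^ L = 2 ^ L * 2 ^ L := by
          rw [← mul_pow]
          norm_num
        rw [h5, pow_add 2 (s + 1) L, pow_succ 2 s]
        field_simp
  have hsub : BM (fun x => fr s x * f x - g x) := (hLBM.1 _ _ hbv hbg).2.1
  have h5 := hLCS.2.2.2.1 _ _ hsub (hLBM.2.1 (1 / 4 ^ L) _ hBb).1 hpt
  rw [hLCS.2.2.2.2 (1 / 4 ^ L) (Bg (s + 1) f)] at h5
  refine h5.trans ?_
  have h6 : (1 / (4 : ℝ) ^ L) ^ 2 = 1 / 16 ^ L := by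
    rw [div_pow, one_pow, ← pow_mul, mul_comm L 2, pow_mul]
    norm_num
  rw [h6]
  calc 1 / 16 ^ L * nsq (Bg (s + 1) f) ≤ 1 / 16 ^ L * (36 * nsq f) := by gcongr
    _ = 36 / 16 ^ L * nsq f := by ring

/-- the coarse projection. -/
theorem LFV_coarseE (hLBM : LBM_stmt) (hLCS : LCS_stmt) (hLEA : LEA_stmt) (hLEP : LEP_stmt) (hLEB : LEB_stmt) (hLEN : LEN_stmt)
    (s0 s : ℕ) (hs0 : 10 ≤ s0) (hss : s0 ≤ s) (f : ℝ → ℝ) (hf : PA (s + 1) f) (hf3 : S3 f) (hE : ∀ x, Es s f x = 0) :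
    nsq (Es s0 (fun z => fr s z * f z)) ≤ 36 / 4 ^ (s - s0) * nsq (fun z => fr s z * f z) := by
  have hbf : BM f := hLBM.2.2.1 (s + 1) f hf fun x hx => hf3 x fun h => hx ⟨by linarith [h.1], by linarith [h.2]⟩
  have hbv : BM (fun x => fr s x * f x) := (hLBM.2.2.2.1 s f hbf).2.2
  obtain ⟨v, hv⟩ : ∃ v : ℝ → ℝ, v = fun x => fr s x * f x := ⟨_, rfl⟩
  rw [← hv] at hbv ⊢
  obtain ⟨g, hg⟩ : ∃ g : ℝ → ℝ, g = Es s0 v := ⟨_, rfl⟩
  have hbg : BM g := by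
    rw [hg]
    exact (hLBM.2.2.2.1 s0 v hbv).1
  have hPg : PA s0 g := by
    rw [hg]
    exact hLEA.2.1 s0 v
  rw [← hg]
  have hv3 : ∀ x, x ∉ Set.Icc (6 / 25 : ℝ) (19 / 25) → v x = 0 := by
    intro x hx
    rw [hv]
    change fr s x * f x = 0
    rw [hf3 x hx, mul_zero]
  have hg3 : ∀ x, x ∉ Set.Icc (1 / 10 : ℝ) (9 / 10) → g x = 0 := by
    intro x hx
    rw [hg]
    refine hLEB.2.2 s0 v (6 / 25) (19 / 25) hv3 x fun h => hx ?_
    have := LFV_pow s0 hs0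
    exact ⟨by linarith [h.1], by linarith [h.2]⟩
  -- the piecewise constant function
  obtain ⟨g', hg'⟩ : ∃ g' : ℝ → ℝ, g' = fun x => g (mid s x) := ⟨_, rfl⟩
  have hmid : ∀ (k : ℤ) (x : ℝ), x ∈ cell s k → mid s x = ((k : ℝ) + 1 / 2) / 2 ^ s := by
    intro k x hx
    rw [LFV_cell] at hx
    unfold mid
    rw [hx]
  have hPg' : PA s g' := by
    intro k
    refine ⟨g (((k : ℝ) + 1 / 2) / 2 ^ s), 0, fun x hx => ?_⟩
    rw [hg']
    change g (mid s x) = _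
    rw [hmid k x hx]
    ring
  have hbg' : BM g' := by
    refine hLBM.2.2.1 s g' hPg' fun x hx => ?_
    rw [hg']
    change g (mid s x) = 0
    apply hg3
    intro h
    apply hx
    have h1 := (LFV_mid s x).2.trans (LFV_pow (s + 1) (by omega))
    rw [abs_le] at h1
    exact ⟨by linarith [h.1, h.2, h1.1, h1.2], by linarith [h.1, h.2, h1.1, h1.2]⟩
  have hbh : BM (fun x => fr s x * g' x) := (hLBM.2.2.2.1 s g' hbg').2.2
  have hPh : PA s (fun x => fr s x * g' x) := by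
    intro k
    refine ⟨-(k : ℝ) * g (((k : ℝ) + 1 / 2) / 2 ^ s), 2 ^ s * g (((k : ℝ) + 1 / 2) / 2 ^ s), fun x hx => ?_⟩
    rw [hg']
    change fr s x * g (mid s x) = _
    rw [hmid k x hx, (LFV_fr s x).1, (LFV_cell s x k).1 hx]
    ring
  have hz : ∫ x, v x * g' x = 0 := by
    have h1 : ∫ x, v x * g' x = ∫ x, f x * Es s (fun x => fr s x * g' x) x := by
      congr 1
      funext x
      rw [hLEA.2.2.1 s _ hPh x, hv]
      ring
    rw [h1, ← hLEP.1 s f _ hbf hbh]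
    have h2 : ∀ x, Es s f x * (fr s x * g' x) = 0 := fun x => by rw [hE, zero_mul]
    simp only [h2, integral_zero]
  have hgg : nsq g = ∫ x, v x * (g x - g' x) := by
    have h1 : nsq g = ∫ x, Es s0 v x * g x := by
      unfold nsq
      congr 1
      funext x
      rw [← hg]
      ring
    have h2 : ∫ x, v x * Es s0 g x = ∫ x, v x * g x := by
      congr 1
      funext x
      rw [hLEA.2.2.1 s0 g hPg x]
    rw [h1, hLEP.1 s0 v g hbv hbg, h2]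
    have h3 : ∀ x, v x * (g x - g' x) = v x * g x - v x * g' x := fun x => by ring
    simp only [h3]
    rw [integral_sub (hLBM.2.1 1 _ (hLBM.1 v g hbv hbg).2.2).2.2 (hLBM.2.1 1 _ (hLBM.1 v g' hbv hbg').2.2).2.2, hz, sub_zero]
  have hbd : BM (fun x => g x - g' x) := (hLBM.1 g g' hbg hbg').2.1
  have hCS := hLCS.1 v (fun x => g x - g' x) hbv hbd
  rw [← hgg] at hCS
  obtain ⟨-, hlip, hB, -⟩ := hLEN s0 g hPg
  obtain ⟨hBb, -, hBn, -⟩ := hB hbg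
  have h2s : (2 : ℝ) ^ s = 2 ^ s0 * 2 ^ (s - s0) := by
    rw [← pow_add]
    congr 1
    omega
  have hpt : ∀ x, |g x - g' x| ≤ |1 / 2 ^ (s - s0) * Bg s0 g x| := by
    intro x
    have h1 : ci s0 x = ci s0 (mid s x) := (LFV_coarse s0 s hss _ _ (LFV_mid s x).1).symm
    have h2 := hlip x (mid s x) h1
    have h3 : 0 ≤ Bg s0 g x := by
      unfold Bg
      positivity
    rw [hg', abs_of_nonneg (by positivity : (0 : ℝ) ≤ 1 / 2 ^ (s - s0) * Bg s0 g x)]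
    change |g x - g (mid s x)| ≤ _
    refine h2.trans ?_
    calc 2 * 2 ^ s0 * Bg s0 g x * |x - mid s x| ≤ 2 * 2 ^ s0 * Bg s0 g x * (1 / 2 ^ (s + 1)) := by
          have := (LFV_mid s x).2
          gcongr
      _ = 1 / 2 ^ (s - s0) * Bg s0 g x := by
        rw [pow_succ, h2s]
        field_simp
  have h5 := hLCS.2.2.2.1 _ _ hbd (hLBM.2.1 (1 / 2 ^ (s - s0)) _ hBb).1 hpt
  rw [hLCS.2.2.2.2 (1 / 2 ^ (s - s0)) (Bg s0 g)] at h5
  have h6 : (1 / (2 : ℝ) ^ (s - s0)) ^ 2 = 1 / 4 ^ (s - s0) := by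
    rw [div_pow, one_pow, ← pow_mul, mul_comm _ 2, pow_mul]
    norm_num
  rw [h6] at h5
  have hn0 : 0 ≤ nsq g := by
    unfold nsq
    exact integral_nonneg fun x => sq_nonneg _
  have hnv : 0 ≤ nsq v := by
    unfold nsq
    exact integral_nonneg fun x => sq_nonneg _
  have h7 : nsq g ^ 2 ≤ nsq v * (36 / 4 ^ (s - s0) * nsq g) := by
    refine hCS.trans (mul_le_mul_of_nonneg_left (h5.trans ?_) hnv)
    calc 1 / 4 ^ (s - s0) * nsq (Bg s0 g) ≤ 1 / 4 ^ (s - s0) * (36 * nsq g) := by gcongr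
      _ = 36 / 4 ^ (s - s0) * nsq g := by ring
  rcases hn0.eq_or_lt with h8 | h8
  · rw [← h8]
    positivity
  · have h9 : nsq g * nsq g ≤ 36 / 4 ^ (s - s0) * nsq v * nsq g := by linarith
    exact le_of_mul_le_mul_right h9 h8

theorem LFV (hFGA : FGA_stmt) (hLBM : LBM_stmt) (hLCS : LCS_stmt) (hLEA : LEA_stmt) (hLEP : LEP_stmt) (hLEB : LEB_stmt)
    (hLEN : LEN_stmt) (hLCV : LCV_stmt) : LFV_stmt := by
  obtain ⟨K, hK, hG⟩ := hFGA
  refine ⟨3 * K + 216, by linarith, ?_⟩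
  intro lam q c s0 s L hlam hlam2 hs0 hss hc hgap f hf hf3 hE
  have hbf : BM f := hLBM.2.2.1 (s + 1) f hf fun x hx => hf3 x fun h => hx ⟨by linarith [h.1], by linarith [h.2]⟩
  have hbv : BM (fun x => fr s x * f x) := (hLBM.2.2.2.1 s f hbf).2.2
  have hfine := LFV_fine hLBM hLCS hLEP hLEN s L (by omega) f hf hf3
  have hcoarse := LFV_coarseE hLBM hLCS hLEA hLEP hLEB hLEN s0 s hs0 hss f hf hf3 hE
  obtain ⟨v, hv⟩ : ∃ v : ℝ → ℝ, v = fun x => fr s x * f x := ⟨_, rfl⟩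
  have hvv : nsq v ≤ nsq f := by
    refine hLCS.2.2.2.1 v f (by rw [hv]; exact hbv) hbf fun x => ?_
    rw [hv]
    change |fr s x * f x| ≤ |f x|
    obtain ⟨-, h1, h2⟩ := LFV_fr s x
    rw [abs_mul, abs_of_nonneg h1]
    exact mul_le_of_le_one_left (abs_nonneg _) h2
  have hv3 : ∀ x, x ∉ Set.Icc (6 / 25 : ℝ) (19 / 25) → v x = 0 := by
    intro x hx
    rw [hv]
    change fr s x * f x = 0
    rw [hf3 x hx, mul_zero]
  rw [← hv] at hbv hfine hcoarse ⊢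
  have hfine' : nsq (fun x => v x - Es (s + 1 + L) v x) ≤ 36 / 16 ^ L * nsq f := by
    have h1 : (fun x => v x - Es (s + 1 + L) v x) = fun x => fr s x * f x - Es (s + 1 + L) v x := by
      funext x
      rw [hv]
    rw [h1]
    exact hfine
  have hnv : 0 ≤ nsq v := integral_nonneg fun x => sq_nonneg _
  have hnf : 0 ≤ nsq f := integral_nonneg fun x => sq_nonneg _
  obtain ⟨n, hn⟩ : ∃ n, n = s + 1 + L := ⟨_, rfl⟩
  rw [← hn] at hfine' hgap
  have hbn : BM (Es n v) := (hLBM.2.2.2.1 n v hbv).1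
  have hb0 : BM (Es s0 v) := (hLBM.2.2.2.1 s0 v hbv).1
  have hbw : BM (fun x => Es n v x - Es s0 v x) := (hLBM.1 _ _ hbn hb0).2.1
  have hPw : PA n (fun x => Es n v x - Es s0 v x) := by
    intro k
    obtain ⟨a, b, h1⟩ := hLEA.2.1 n v k
    obtain ⟨a', b', h2⟩ := hLEA.1 s0 n _ (by omega) (hLEA.2.1 s0 v) k
    refine ⟨a - a', b - b', fun x hx => ?_⟩
    change Es n v x - Es s0 v x = _
    rw [h1 x hx, h2 x hx]
    ring
  have hSw : S2 (fun x => Es n v x - Es s0 v x) := by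
    intro x hx
    change Es n v x - Es s0 v x = 0
    have e1 := LFV_pow s0 hs0
    have e2 := LFV_pow n (by omega)
    rw [hLEB.2.2 n v (6 / 25) (19 / 25) hv3 x fun h => hx ⟨by linarith [h.1], by linarith [h.2]⟩,
      hLEB.2.2 s0 v (6 / 25) (19 / 25) hv3 x fun h => hx ⟨by linarith [h.1], by linarith [h.2]⟩, sub_zero]
  have hEw : ∀ x, Es s0 (fun x => Es n v x - Es s0 v x) x = 0 := by
    intro x
    rw [(hLEA.2.2.2.1 s0 _ _ hbn hb0 x).2, (hLEA.2.2.2.2.2.1 s0 n v hbv (by omega) x).1, (hLEA.2.2.2.2.2.1 s0 s0 v hbv le_rfl x).1, sub_self]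
  have hnw : nsq (fun x => Es n v x - Es s0 v x) ≤ nsq v := by
    have h1 := hLEP.2.1 s0 (Es n v) hbn
    have h2 : (fun x => Es n v x - Es s0 (Es n v) x) = fun x => Es n v x - Es s0 v x := by
      funext x
      rw [(hLEA.2.2.2.2.2.1 s0 n v hbv (by omega) x).1]
    rw [h2] at h1
    have h3 := hLEP.2.1 n v hbv
    have h4 : 0 ≤ nsq (Es s0 (Es n v)) := integral_nonneg fun x => sq_nonneg _
    have h5 : 0 ≤ nsq (fun x => v x - Es n v x) := integral_nonneg fun x => sq_nonneg _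
    linarith
  have hMw := hG lam q c s0 n hlam hlam2 hs0 hc hgap _ n le_rfl hPw hSw hEw
  have hbr : BM (fun x => v x - Es n v x) := (hLBM.1 _ _ hbv hbn).2.1
  have hMr := hLCV.2.2.2.2.2 q c _ hc hbr
  have hM0 := hLCV.2.2.2.2.2 q c _ hc hb0
  have hbM := hLBM.2.2.2.2.2 q c
  -- the sum
  have hsum : Mop q c v = fun x => (Mop q c (fun x => Es n v x - Es s0 v x) x + Mop q c (fun x => v x - Es n v x) x) + Mop q c (Es s0 v) x := by
    funext x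
    unfold Mop
    rw [← add_div, ← add_div, ← Finset.sum_add_distrib, ← Finset.sum_add_distrib]
    congr 1
    refine Finset.sum_congr rfl fun i _ => ?_
    ring
  have hLg : 1 ≤ Lg lam := by
    unfold Lg
    have : 0 ≤ Real.log (1 / lam) := Real.log_nonneg (by
      rw [le_div_iff₀ hlam]
      linarith)
    linarith
  have hs1 := hLCS.2.1 _ _ (hLBM.1 _ _ (hbM _ hbw) (hbM _ hbr)).1 (hbM _ hb0)
  have hs2 := hLCS.2.1 _ _ (hbM _ hbw) (hbM _ hbr)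
  rw [← hsum] at hs1
  obtain ⟨A, hA⟩ : ∃ A, A = nsq (Mop q c (fun x => Es n v x - Es s0 v x)) := ⟨_, rfl⟩
  obtain ⟨B, hB⟩ : ∃ B, B = nsq (Mop q c (fun x => v x - Es n v x)) := ⟨_, rfl⟩
  obtain ⟨D, hD⟩ : ∃ D, D = nsq (Mop q c (Es s0 v)) := ⟨_, rfl⟩
  obtain ⟨M, hM⟩ : ∃ M, M = nsq (Mop q c v) := ⟨_, rfl⟩
  have hs3 : √M ≤ √A + √B + √D := by
    rw [hM, hA, hB, hD]
    linarith
  have hA0 : 0 ≤ A := by rw [hA]; exact integral_nonneg fun x => sq_nonneg _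
  have hB0 : 0 ≤ B := by rw [hB]; exact integral_nonneg fun x => sq_nonneg _
  have hD0 : 0 ≤ D := by rw [hD]; exact integral_nonneg fun x => sq_nonneg _
  have hM0' : 0 ≤ M := by rw [hM]; exact integral_nonneg fun x => sq_nonneg _
  have hfin : M ≤ 3 * (A + B + D) := by
    have e1 := Real.sq_sqrt hA0
    have e2 := Real.sq_sqrt hB0
    have e3 := Real.sq_sqrt hD0
    have e4 := Real.sq_sqrt hM0'
    have e5 := Real.sqrt_nonneg M
    nlinarith [sq_nonneg (√A - √B), sq_nonneg (√B - √D), sq_nonneg (√A - √D), Real.sqrt_nonneg A, Real.sqrt_nonneg B, Real.sqrt_nonneg D]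
  rw [← hM]
  have f1 : A ≤ K * lam ^ 2 * Lg lam * nsq f := by
    rw [hA]
    refine hMw.trans ?_
    have : 0 ≤ K * lam ^ 2 * Lg lam := by positivity
    exact mul_le_mul_of_nonneg_left (hnw.trans hvv) this
  have f2 : B ≤ 2 * (36 / 16 ^ L * nsq f) := by
    rw [hB]
    linarith
  have f3 : D ≤ 2 * (36 / 4 ^ (s - s0) * nsq f) := by
    rw [hD]
    refine hM0.trans ?_
    have : 36 / 4 ^ (s - s0) * nsq v ≤ 36 / 4 ^ (s - s0) * nsq f := by gcongr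
    linarith
  refine hfin.trans ?_
  have g1 : 0 ≤ lam ^ 2 * Lg lam * nsq f := by positivity
  have g2 : (0 : ℝ) ≤ 1 / 16 ^ L * nsq f := by positivity
  have g3 : (0 : ℝ) ≤ 1 / 4 ^ (s - s0) * nsq f := by positivity
  have g4 : 36 / 16 ^ L * nsq f = 36 * (1 / 16 ^ L * nsq f) := by ring
  have g5 : 36 / 4 ^ (s - s0) * nsq f = 36 * (1 / 4 ^ (s - s0) * nsq f) := by ring
  have g6 : K * lam ^ 2 * Lg lam * nsq f = K * (lam ^ 2 * Lg lam * nsq f) := by ring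
  rw [g4] at f2
  rw [g5] at f3
  rw [g6] at f1
  have g7 : (3 * K + 216) * (lam ^ 2 * Lg lam + 1 / 4 ^ (s - s0) + 1 / 16 ^ L) * nsq f =
      (3 * K + 216) * (lam ^ 2 * Lg lam * nsq f) + (3 * K + 216) * (1 / 4 ^ (s - s0) * nsq f) + (3 * K + 216) * (1 / 16 ^ L * nsq f) := by ring
  rw [g7]
  have g8 : 0 ≤ K * (1 / 4 ^ (s - s0) * nsq f) := by positivity
  have g9 : 0 ≤ K * (1 / 16 ^ L * nsq f) := by positivity
  linarith

end Pool.Agent.helper90.DH
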