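import Pool.Agent.helper18.DH.SpecM

/-!
# Project dh: (MP_5823cb_al), row d2:MCOC: the cocycle identity
-/

set_option autoImplicit false

open Filter Topology MeasureTheory
open scoped commutatorElement

namespace Pool.Agent.helper90.DH

open Pool.Agent.helper64.D2

theorem COC_step (hNCA : NCA_stmt) (G Q R : ℕ → DD) (i : ℕ)
    (hR : R i = (G i)⁻¹ * (Q i * (Q (i + 1))⁻¹) * G i * R (i + 1)) (x : ℝ) :
    Nn (R i) x = ((Nn (Q i) (ev (Cm G Q R i) x) - Nn (Q (i + 1)) (ev (Cm G Q R i) x)) * deriv (ev (Cm G Q R i)) x +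
      (Nn (G i)⁻¹ (ev (Fm Q i) (ev (Em G R i) x)) * deriv (ev (Fm Q i)) (ev (Em G R i) x) - Nn (G i)⁻¹ (ev (Em G R i) x)) *
        deriv (ev (Em G R i)) x) + Nn (R (i + 1)) x := by
  obtain ⟨-, hdm, -, -, -, -, hNm, hNi, -⟩ := hNCA
  have h1 : R i = (G i)⁻¹ * (Fm Q i * Em G R i) := by
    rw [hR]
    unfold Fm Em
    group
  have h2 : Nn (R i) x = Nn (G i)⁻¹ (ev (Fm Q i) (ev (Em G R i) x)) * (deriv (ev (Fm Q i)) (ev (Em G R i) x) * deriv (ev (Em G R i)) x) +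
      (Nn (Fm Q i) (ev (Em G R i) x) * deriv (ev (Em G R i)) x + Nn (Em G R i) x) := by
    rw [h1, hNm, hNm (Fm Q i), hdm (Fm Q i), ev_mul]
  have h3 : Nn (Em G R i) x = -(Nn (G i)⁻¹ (ev (Em G R i) x) * deriv (ev (Em G R i)) x) + Nn (R (i + 1)) x := by
    have h4 : Nn (G i) (ev (R (i + 1)) x) = -(Nn (G i)⁻¹ (ev (G i) (ev (R (i + 1)) x)) * deriv (ev (G i)) (ev (R (i + 1)) x)) := by
      have := hNi (G i)⁻¹ (ev (R (i + 1)) x)
      rwa [inv_inv] at this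
    unfold Em
    rw [hNm, h4, hdm, ev_mul]
    ring
  have h5 : Nn (Fm Q i) (ev (Em G R i) x) * deriv (ev (Em G R i)) x =
      (Nn (Q i) (ev (Cm G Q R i) x) - Nn (Q (i + 1)) (ev (Cm G Q R i) x)) * deriv (ev (Cm G Q R i)) x := by
    have h6 : Cm G Q R i = (Q (i + 1))⁻¹ * Em G R i := rfl
    rw [h6, hdm, ev_mul]
    unfold Fm
    rw [hNm, hNi]
    ring
  rw [h2, h3, h5]
  ring

theorem COC (hNCA : NCA_stmt) : COC_stmt := by
  intro q G Q R hR
  have key : ∀ n i : ℕ, i + n = q → ∀ x : ℝ, Nn (R i) x = ∑ k ∈ Finset.Ico i q,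
      ((Nn (Q k) (ev (Cm G Q R k) x) - Nn (Q (k + 1)) (ev (Cm G Q R k) x)) * deriv (ev (Cm G Q R k)) x +
        (Nn (G k)⁻¹ (ev (Fm Q k) (ev (Em G R k) x)) * deriv (ev (Fm Q k)) (ev (Em G R k) x) - Nn (G k)⁻¹ (ev (Em G R k) x)) *
          deriv (ev (Em G R k)) x) := by
    intro n
    induction n with
    | zero =>
      intro i hi x
      have h1 : i = q := by omega
      rw [h1, Finset.Ico_self, Finset.sum_empty, hR.1]
      exact (hNCA.2.2.2.2.2.2.2.2 x).1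
    | succ n ih =>
      intro i hi x
      rw [Finset.sum_eq_sum_Ico_succ_bot (by omega : i < q), ← ih (i + 1) (by omega) x]
      exact COC_step hNCA G Q R i (hR.2 i (by omega)) x
  intro i hi x
  exact key (q - i) i (by omega) x

end Pool.Agent.helper90.DH
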